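import Pool.Agent.J6H31.GA.NumB

/-!
# Homological and numerical equivalence on abelian `p`-coverings of varieties of even dimension

Let `𝒳` be a smooth projective variety of dimension `2 m` over the finite field `κ` with `q` elements, or
over a finitely generated field with a smooth projective reduction over `κ`. Let `G` be a finite
abelian group of automorphisms of `𝒳` whose order is a power of a prime `p` which does not divide `q`, and
`Y = 𝒳 / G`. Assume that `G` acts trivially on the cohomology of `𝒳` in the degrees different from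
`2 m` (for example abelian coverings of projective space branched along ample divisors with normal
crossings), so that there the question is the one for `Y`. Let `Z_1, …, Z_r` be closed subvarieties of `Y`
over `κ` with inertia groups `I_1, …, I_r`: the stabilizer of a point `x` of `𝒳` is generated by the `I_j`
with `π(x) ∈ Z_j`. For a character `χ` of `G` let `H_χ` be the part of `H = H^{2m}(𝒳̄, ℚ̄_ℓ)` on
which `G` acts by `χ` (`ℓ = p` is allowed), `J(χ)` the set of the `j` with `χ` nontrivial on `I_j`, and

`m(χ) = ∑_{A ⊆ J(χ)} (-1) ^ |A| μ(Z_A)`,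

`μ(Z_A)` being the order of the pole at `T = q ^ (-m)` of the zeta function of `Z_A = ⋂_{j ∈ A} Z_j` over
`κ` modulo `p` (`Z_∅ = Y`). Let `n` be a power of `p`. We consider cycles of codimension `m` over the
extension `κ_n` of `κ` of degree `n`, or over a finitely generated field whose Galois group contains the
`n`-th power of a Frobenius element (3). Let `A ⊆ H` be the span of their classes. Homological
and numerical equivalence coincide for these cycles if and only if the intersection pairing is
nondegenerate on `A`. Let `N ⊆ A` be the span of the classes of some known cycles, stable under `G`,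
such that the pairing is nondegenerate on `N`; `N = 0` is allowed. Let `sgn χ = 1` if `p = 2`, `χ² = 1`
and the determinant of Frobenius on `H_χ` is `-q ^ (m dim)`, and `sgn χ = 0` otherwise.

Theorem. (1) Let `m(χ) ≤ dim N_χ` for all `χ ≠ 1`; for `n = 1` it is enough that
`m(χ) ≤ dim N_χ + sgn χ`. Then homological and numerical equivalence coincide for `𝒳` in codimension
`m` if and only if they do so for `Y`, and the Tate conjecture holds for `𝒳` in codimension `m`
(in the strong form: all generalized Tate classes are algebraic) if and only if it holds for `Y`. If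
`H^{2m}(Ȳ)` is spanned by classes of cycles (for example `Y = ℙ^{2m}`), homological and numerical
equivalence coincide for `𝒳`.

(2) Let `μ(Z_A) = max (2 m + 1 - |A|, 0)` for all `A`. For `q ≡ 1 modulo p`, `Y = ℙ^{2m}` and smooth
hypersurfaces `Z_j` with normal crossings this means that the values at `T = 1` of the polynomials of
the primitive cohomology groups of the complete intersections `Z_A`, `|A| < 2 m`, are prime to `p`
(the class numbers are prime to `p`), and that the `Z_A` with `|A| = 2 m` are closed points of
degrees prime to `p`. Assume that for each `χ ≠ 1` we have `2 ≤ |J(χ)| ≤ 2 m + 1`, or `n = 1`, `sgn χ = 1`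
and `|J(χ)| = 1` or `2 m + 2`. Then `m(χ) ≤ sgn χ`, so that (1) holds with `N = 0`; moreover all Tate
classes over `κ_n` are invariant.

Examples of (2): for `r = 2 m + 1` hypersurfaces `Z_j : F_j = 0` with normal crossings whose degrees are
prime to `p`, the (smooth) covering of `ℙ^{2m}` whose function field is generated by the `(p ^ s)`-th
roots of all monomials of degree zero in the `F_j`; all characters `χ ≠ 1` are ramified along at least
two of them. The degrees, `s` and the Betti numbers can be arbitrarily large.

Proof. The multiplicity of the eigenvalues `q ^ m ζ`, `ζ ^ n = 1`, on `H_χ` is at most `m(χ) - sgn χ`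
(see MP_1fe969_ag.AlgebraicClassesAndSigns), so all Tate classes in `H_χ`, `χ ≠ 1`, are in `N`; and
`H_χ` is orthogonal to `H^G = H^{2m}(Ȳ)`. For (2) one computes the alternating sum.
-/

set_option autoImplicit false
set_option linter.unusedVariables false

namespace Pool.Agent.Results.MP_0c8446_ag.AbelianPCoverings

open Finset Polynomial Module Pool.Agent.J6H31.GA

/-- Homological and numerical equivalence on abelian `p`-coverings. -/
theorem result {p s q m r : ℕ} [Fact p.Prime] (hq : ¬ p ∣ q) {G : Type} [CommGroup G]
    [Fintype G] (hG : ∀ g : G, g ^ p ^ s = 1) {K : Covering G} {E : Type} [Field E] [CharZero E]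
    [IsAlgClosed E] (D : Arrangement K E r) (H : Middle K (2 * m) q E) (b : ℕ) :
    -- (1) enough algebraic classes
    (∀ N A : Submodule E H.V, H.Enough D p (p ^ b) N → H.Cycles (p ^ b) A → N ≤ A →
      H.Descends (p ^ b) A) ∧
    -- (2) branch divisors in good position
    (D.GoodPosition p q m → (∀ χ : G →* E, χ ≠ 1 → H.Few D p (p ^ b) χ) →
      H.Enough D p (p ^ b) ⊥ ∧ H.tate (p ^ b) ≤ H.inv) ∧
    -- (3) finitely generated fields
    (∀ A : Submodule E H.V, H.Fixed (p ^ b) A → H.Cycles (p ^ b) A) := by
  classical
  have hp : p.Prime := Fact.out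
  have hn : 0 < p ^ b := pow_pos hp.pos b
  have hcn : ∀ g, Commute (H.Φ ^ p ^ b) (H.ρ g) := fun g => (H.isMiddle.comm g).pow_left _
  have hle : ∀ A : Submodule E H.V, H.Cycles (p ^ b) A → A ≤ H.tate (p ^ b) := by
    intro A hA x hx
    exact (((H.Φ ^ p ^ b).genEigenspace _).mono le_top)
      (Module.End.mem_eigenspace_iff.2 (hA.2 x hx))
  have hTG : ∀ g, ∀ x ∈ H.tate (p ^ b), H.ρ g x ∈ H.tate (p ^ b) := fun g x hx =>
    Module.End.mapsTo_maxGenEigenspace_of_comm (hcn g) _ hx
  have hbound : ∀ χ : G →* E, χ ≠ 1 →
      (finrank E (H.tate (p ^ b) ⊓ eig H.ρ χ : Submodule E H.V) : ℤ)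
        + (if p ^ b = 1 then (H.sgn p χ : ℤ) else 0) ≤ D.tateMult p q m χ := by
    intro χ hχ
    by_cases hb : p ^ b = 1
    · rw [if_pos hb]
      have h1 := gen_bound hq hG D rfl H.isMiddle H.B H.isPairing.nondeg H.group
        H.isPairing.frob hχ (α := (q : E) ^ m) rfl
      have h2 : H.tate (p ^ b) = H.Φ.maxGenEigenspace ((q : E) ^ m) := by
        unfold Middle.tate
        rw [hb, pow_one, pow_one]
      rw [h2]
      push_cast at h1
      exact h1
    · rw [if_neg hb, add_zero]
      exact gen_bound_pow hq hG D rfl H.isMiddle hχ rfl b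
  have h1 : ∀ N A : Submodule E H.V, H.Enough D p (p ^ b) N → H.Cycles (p ^ b) A → N ≤ A →
      H.Descends (p ^ b) A ∧ H.tate (p ^ b) ≤ H.inv ⊔ N := by
    intro N A hN hA hNA
    have h2 := num_descent (ρ := H.ρ) H.B H.isPairing.nondeg H.group hA.1 hTG hNA
      (hle A hA) hN.2.1 (fun χ hχ => by
        have h3 := hbound χ hχ
        have h4 := hN.2.2 χ hχ
        unfold Middle.EnoughFor at h4
        have h5 : (H.rank N χ : ℤ) = (finrank E (N ⊓ eig H.ρ χ : Submodule E H.V) : ℤ) := rfl
        rw [h5] at h4
        have h6 : (finrank E (H.tate (p ^ b) ⊓ eig H.ρ χ : Submodule E H.V) : ℤ)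
            ≤ (finrank E (N ⊓ eig H.ρ χ : Submodule E H.V) : ℤ) := by
          split_ifs at h3 h4 with hb <;> push_cast at h4 <;> linarith
        exact_mod_cast h6)
    exact ⟨⟨h2.1, h2.2.1, h2.2.2.1⟩, h2.2.2.2⟩
  refine ⟨fun N A hN hA hNA => (h1 N A hN hA hNA).1, ?_, ?_⟩
  · intro hD hfew
    have hbot : H.Cycles (p ^ b) ⊥ := by
      constructor
      · intro g x hx
        rw [Submodule.mem_bot] at hx ⊢
        rw [hx, map_zero]
      · intro x hx
        rw [Submodule.mem_bot] at hx
        rw [hx, map_zero, smul_zero]
    have hen : H.Enough D p (p ^ b) ⊥ :=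
      ⟨hbot, fun x hx _ => (Submodule.mem_bot E).1 hx, fun χ hχ =>
        Middle.Few.enough H hD (hfew χ hχ)⟩
    refine ⟨hen, ?_⟩
    have h2 := (h1 ⊥ ⊥ hen hbot le_rfl).2
    rwa [sup_bot_eq] at h2
  · intro A hA
    exact ⟨hA.1, hA.2.actsBy⟩

end Pool.Agent.Results.MP_0c8446_ag.AbelianPCoverings
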