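import Pool.Agent.J6H2.CL.Loc2

/-!
# The conjecture D for products with varieties with self-dual transcendental cohomology

Let `W` be a Weil cohomology theory with coefficient field `K` of characteristic zero, and let `𝒢` be
a set of symmetries of `W`, for example the Galois group of `k` (or of a subfield over which all
varieties in the class are defined) acting on `ℓ`-adic cohomology. Let `X` be a variety with a divisor
`D` such that hard Lefschetz, the Lefschetz standard conjecture and the conjecture D hold for `X`
itself (for example a surface), and let `T^i` be the transcendental part of `H^i(X)`: the classes
orthogonal to all algebraic classes.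

Assume that `T^i` is a semisimple representation of `𝒢` for all `i ≤ dim X`, and that for each
irreducible subrepresentation `U` of `T^i` either the Lefschetz form is not zero on `U`, or `U` is
self-dual up to the multiplier of the form and all homomorphisms `U → T^i` are algebraic. So the Tate
conjecture for `X × X` is needed only for isotropic `U`: for example it is enough that `T^i` is the sum
of pairwise non-isomorphic self-dual irreducible representations, with no condition on `X × X` at all;
or that all irreducible constituents of `T^i` are self-dual and the Tate conjecture holds for
`T^i ⊗ T^(2 dim X - i)` on `X × X`.

Then numerical and homological equivalence coincide on all products of such varieties `X` with all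
varieties `Y` for which this is known, and on everything dominated by them.

If `W` is `ℓ`-adic cohomology over a finite field, the condition says that the irreducible factors over
the field of `ℓ`-adic numbers of the characteristic polynomials of Frobenius on the `T^i` are
self-reciprocal (in the normalisation of weight zero): no place above `ℓ` of the totally real
subalgebra generated by `F + q^i / F` splits in the algebra generated by the Frobenius `F`. Clozel's
theorem (Annals 1999) for abelian varieties uses that there is a set of `ℓ` of positive density with
this property (and more: with one decomposition group containing the complex conjugation). If the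
centre of the algebra of correspondences on `T^i` is totally real, all constituents are self-dual for
all `ℓ` and all theories `W`, for example for the surfaces over finitely generated fields of
characteristic `p` with totally real multiplication for whose squares the Tate conjecture holds; see
`totally_real` below.
-/

universe u v w

open Pool.Agent.H914 Pool.Agent.R908 Pool.Agent.J6H2.CL

namespace Pool.Agent.Results.MP_0c8446_ag.SelfDualConstituents

/-- Let `𝒳` be a set of varieties `X` which satisfy, for some divisor `D`, the condition
`SelfDualVariety` (the conjectures B and D hold for `X`; the transcendental cohomology is semisimple,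
and each irreducible subrepresentation is either not isotropic, or self-dual with only algebraic
homomorphisms to the transcendental cohomology). Then for any set `𝒴` of varieties the conjecture D
extends from products of members of `𝒴` to all varieties dominated by products of members of `𝒳` and
`𝒴`, and these satisfy the conjecture B. -/
theorem result {k : Type u} [Field k] {𝒱 : VarClass k} {ops : CycleOps 𝒱}
    (W : WeilCohomology.{u, v} ops) (𝒢 : Set (Symmetry W)) (𝒳 : Set 𝒱.Obj)
    (h : ∀ X ∈ 𝒳, ∃ D, SelfDualVariety W 𝒢 X D) (𝒴 : Set 𝒱.Obj) : PropagatesD W 𝒳 𝒴 :=
  propagates_selfDual W 𝒢 𝒳 h 𝒴

/-- A version for varieties whose squares satisfy the Tate conjecture, in terms of the generators of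
the centres: it is enough that each root `α` of `μ i` is conjugate over `K` to the root `r i (α)`. -/
theorem local_criterion {k : Type u} [Field k] {𝒱 : VarClass k} {ops : CycleOps 𝒱}
    (W : WeilCohomology.{u, v} ops) (𝒢 : Set (Symmetry W)) {ι : Type w} (P : ι → TateVar 𝒱)
    (h : ∀ a, (P a).HasTate W 𝒢) (hc : ∀ a, (P a).ConjugateRoots W) (𝒴 : Set 𝒱.Obj) :
    PropagatesD W (Set.range fun a => (P a).X) 𝒴 :=
  propagates_conj W 𝒢 P h hc 𝒴

/-- The case of totally real centres: there is no condition on the theory `W`. -/
theorem totally_real {k : Type u} [Field k] {𝒱 : VarClass k} {ops : CycleOps 𝒱}
    (W : WeilCohomology.{u, v} ops) (𝒢 : Set (Symmetry W)) {ι : Type w} (P : ι → TateVar 𝒱)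
    (h : ∀ a, (P a).HasTate W 𝒢) (hr : ∀ a, (P a).TotallyReal) (𝒴 : Set 𝒱.Obj) :
    PropagatesD W (Set.range fun a => (P a).X) 𝒴 :=
  propagates_conj W 𝒢 P h (fun a => (hr a).conjugateRoots W) 𝒴

end Pool.Agent.Results.MP_0c8446_ag.SelfDualConstituents
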