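import Pool.Agent.J6H31.TQ.Spec
import Pool.Agent.J6H31.TQ.Rev

/-!
# Homological and numerical equivalence on products of varieties with separated Frobenius polynomials

Let `X_j` be smooth projective varieties over a field with `q` elements whose transcendental cohomology
(the orthogonal complement of the classes of cycles) lies in the middle degree `n_j = dim X_j`, for
example curves, surfaces with `b₁ = 0` and Fano threefolds. Let the characteristic polynomial of
Frobenius on the transcendental cohomology of `X_j` be a product of polynomials `g_{j,c}` with integral
coefficients which are irreducible over `ℚ` and have no root `q ^ (n_j / 2) ζ` with a root of unity `ζ`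
(`IsWeil`). Let `S` be a finite set of these polynomials and `g ∈ S`. We say that `g` is separated from
the others in `S` if there are a prime number `p` which does not divide `q` and a number `k ≥ 0` such
that

* all polynomials in `S` are squarefree modulo `p`;
* `g` has an irreducible factor `g₀` of degree `2 ^ (k + 1)` modulo `p`;
* the degrees of all the other irreducible factors modulo `p` of all polynomials in `S` are not divisible
  by `2 ^ (k + 1)`, or they are divisible by `2 ^ (k + 2)` and the factor is self-dual (with `y` also
  `q ^ n / y` is a root).

(For one polynomial `g` this means, by the theorem of Chebotarev, that its Galois group contains an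
element with one cycle of length `2 ^ (k + 1)` whose other cycles have lengths which are not divisible
by `2 ^ (k + 1)`, or are divisible by `2 ^ (k + 2)` and are stable under the duality. The Galois group
may be much smaller than the hyperoctahedral group, and nothing is assumed on the slopes.)

Theorem. (1) If each of the polynomials `g_{j,c}` is separated from the others in each finite set of
them (`SeparatedFamily`), homological and numerical equivalence coincide and the standard conjecture of
Hodge type holds for ALL products of the `X_j` (with any number of factors, repetitions allowed) if and
only if the `X_j` satisfy the Riemann hypothesis and the conjecture of Hodge type. If the dimensions of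
the `X_j` are at most three both are known (Weil, Deligne; Segre, Grothendieck: the conjecture is about
divisors only), so the conclusion is unconditional.

(2) Polynomials which are irreducible modulo one prime `p`, which does not divide `q`, and whose
degrees are different powers of `2` (at least `2`) are separated.

(3) Let `q` be odd and `f` a monic polynomial with integral coefficients which is irreducible over `ℚ`
and self-dual. Let `f` be squarefree modulo `2`, with exactly one irreducible factor of degree
`2 ^ (k + 1)`, all the others having degrees not divisible by `2 ^ (k + 1)`; if `f` is irreducible modulo
`2` let `k ≥ 2`. Then no root of `f` is of the form `q ^ (n / 2) ζ`, and `f` satisfies the conditions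
in (1), with `p = 2`, if it is the only polynomial.

Remark. For a double covering `X_j → Y` (or, more generally, for the part of a character of order two of
an abelian `2`-group of automorphisms) the reduction of the Frobenius polynomial modulo `2` is given by
the zeta functions of `Y` and of the branch locus modulo `2` (see MP_93fb11_ag.AbelianPCoverings). So
the conditions in (2) and (3) for `p = 2` are conditions on the branch locus.

Examples: double coverings of `(ℙ¹)³` branched along smooth surfaces `Z` of tridegree `(2, 2, 2 c)`, with
`b₃ = 8 (3 c - 1)`, for example `16`, `64`, `256` for `c = 1`, `3`, `11` (`c = 1`: Fano threefolds); the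
reduction is `P₂(Z, T) / (1 - T) ^ 6` modulo `2`. If this is irreducible and `3 c - 1` is a power of `2`,
homological and numerical equivalence coincide for all powers of the threefold, and for all products of
such threefolds with different `c`. For surfaces `X_{2a} ⊂ P(1,1,2,a)`, `a` odd (`K² = 1`, `p_g = 2` for
`a = 5`), and for elliptic surfaces with a section over `ℙ¹` and irreducible fibres, the reduction is
the numerator of the zeta function of the branch curve (of genus `(a - 1) ^ 2`, respectively of the curve of
the points of order two, of genus `6 p_g + 4`) modulo `2`. If it has exactly one irreducible factor of
degree `2 ^ (k + 1)`, the degrees of the others are not divisible by `2 ^ (k + 1)`, there is more than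
one factor and the Frobenius polynomial is irreducible over `ℚ`, then homological and numerical
equivalence coincide for all powers of the surface.

Proof. Let `u_x = x ^ 2 / q ^ n` be the normalized eigenvalues and `σ` a Frobenius element for `p`. On the
roots `x` of a factor of degree `D` modulo `p` the `D`-th power of `σ` is the identity, on the roots of a
self-dual factor the `(D / 2)`-th power is the duality `u ↦ 1 / u`. So in the module generated by the
`u_x`, modulo torsion, the roots of `g₀` generate a module over `ℤ[X] / (X ^ (2 ^ k) + 1)`, and all the others are
annihilated by polynomials prime to the irreducible polynomial `X ^ (2 ^ k) + 1`. So in each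
multiplicative relation between the eigenvalues the part in the roots of `g₀` is a relation itself, up to
torsion, and as `X ^ (2 ^ k) + 1` is irreducible it is a trivial one. Since the Galois group acts
transitively on the roots of `g`, the exponents at `x` and at `q ^ n / x` agree for all roots `x` of
`g`. So there are only the obvious relations, and one can apply the theorem on products of varieties
with this property (MP_361a6f_ag.HodgeProducts). (3) The reductions modulo `2` of the conjugates of
`q ^ (n / 2) ζ` are primitive roots of unity of the same odd order, so the irreducible factors of `f`
modulo `2` have the same degree; and the cyclotomic polynomials of degree `2 ^ (k + 1) ≥ 8` are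
reducible modulo `2`.
-/

set_option autoImplicit false
set_option linter.unusedVariables false

universe u v w

namespace Pool.Agent.Results.MP_0c8446_ag.SeparatedPolynomials

open Polynomial Pool.Agent.J6H31.TQ Pool.Agent.H914
  Pool.Agent.H914.VarClass Pool.Agent.H914.VarClass.Obj

/-- Homological and numerical equivalence on products of varieties with separated Frobenius
polynomials. -/
theorem result :
    -- (1) all products
    (∀ {k : Type u} [Field k] {𝒱 : VarClass k} {ops : CycleOps 𝒱}
      (W : WeilCohomology.{u, v} ops) {ι : Type w} (P : ι → PolVar 𝒱) (q : ℕ),
      IsSetting W P q → SeparatedFamily W P q → ProductsIff W P q) ∧
    -- (2) irreducible polynomials modulo one prime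
    (∀ {J : Type w} (f : J → ℤ[X]) (n k : J → ℕ) (p q : ℕ) [Fact p.Prime],
      (∀ a, IsWeil q (n a) (f a)) → IrrMod p q f k →
      ∀ (A : Finset J) (a : J), Separated A f n q a) ∧
    -- (3) the prime two
    (∀ {q n k : ℕ} [Fact (Nat.Prime 2)] (f : ℤ[X]), ¬ 2 ∣ q → IsDual q n f → IrrQ f →
      OneFactor k (modP 2 f) → (2 ≤ k ∨ ¬ Irreducible (modP 2 f)) →
      IsWeil q n f ∧ OneCycle 2 q n k f) := by
  refine ⟨?_, ?_, ?_⟩
  · intro k _ 𝒱 ops W ι P q h hS
    exact hodge_products h.q_ne_zero h.divisor h.lefschetz h.middle hS h.frobenius
  · intro J f n k p q _ hf h A a
    exact separated_of_irreducible h.coprime hf h.irreducible h.degree h.injective A a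
  · intro q n k _ f hq hf hirr h h'
    exact weil_of_oneFactor hq hf.monic hirr hf.coeff_zero hf.dual h h'

end Pool.Agent.Results.MP_0c8446_ag.SeparatedPolynomials
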