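import Pool.Agent.J6H31.GA.PairD

/-!
# Homological and numerical equivalence on the products of a covering with any variety

Let `𝒳` be a smooth projective variety of any dimension `d` over the finite field `κ` with `q` elements,
or over a finitely generated field with a smooth projective reduction over `κ`. Let `G` be a finite
abelian group of automorphisms of `𝒳` whose order is a power of a prime `p` which does not divide `q`,
such that `G` acts trivially on the cohomology of `𝒳` in the degrees different from `d`, and
`Y = 𝒳 / G`; for example a cyclic (or abelian) covering of `Y = ℙ^d` of degree `p ^ s` branched along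
ample divisors with normal crossings. Let `Z_1, …, Z_r` be closed subvarieties of `Y` with inertia
groups `I_1, …, I_r`: the stabilizer of a point `x` of `𝒳` is generated by the `I_j` with
`π(x) ∈ Z_j`. For a character `χ ≠ 1` of `G` let `H_χ` be the part of `H^d(𝒳̄, ℚ̄_ℓ)` on which `G` acts
by `χ`, and `red_χ` the polynomial over the field with `p` elements which is the quotient of the
polynomials of the zeta functions of the intersections of the `Z_j` at which `χ` is ramified; it is
congruent to the characteristic polynomial of Frobenius on `H_χ` modulo all places above `p`.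

Let `𝒵` be ANY smooth projective variety over the same field, and `P` the characteristic polynomial of
Frobenius on `H^j(𝒵)`. Let `2 c = d + j`. We consider the cycles of codimension `c` on `𝒳 × 𝒵` over the
extension `κ_n` of `κ`, `n` a power of `p`, or over a finitely generated field whose Galois group
contains the `n`-th power of a Frobenius element (4), the span `A ⊆ W = H^{2c}(𝒳 × 𝒵)` of their classes
and the span `A' ⊆ W'` of the classes of the cycles of complementary codimension. Homological and
numerical equivalence coincide for the cycles of codimension `c` if and only if no nonzero element of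
`A` is orthogonal to `A'`. The group `G` acts on `𝒳 × 𝒵` with the quotient `Y × 𝒵`, and for `χ ≠ 1`
the part `W_χ` is `H_χ ⊗ H^j(𝒵)` by the Künneth formula.

Theorem. (1) The dimension of the space of (generalized) Tate classes in `W_χ` is at most the number of
the pairs of a root `u` of `red_χ` and a root `v` of `P` modulo `p` with `u v q ^ c = 1`, with
multiplicities.
(2) Let `N ⊆ A`, `N' ⊆ A'` be spans of some known classes of cycles, such that `N` is stable under `G` and
no nonzero element of `N` is orthogonal to `N'`. If the number of pairs in (1) is at most the dimension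
of `N_χ` for all `χ ≠ 1`, then homological and numerical equivalence coincide for the cycles of
codimension `c` on `𝒳 × 𝒵` if and only if they coincide for those on `Y × 𝒵`, and the Tate conjecture
for `𝒳 × 𝒵` in codimension `c` follows from the one for `Y × 𝒵`.
(3) In particular this holds if for `χ ≠ 1` there are no pairs of roots as in (1); then all Tate classes
on `𝒳 × 𝒵` of codimension `c` are invariant under `G`.

For `Y = ℙ^d` the cycles on `Y × 𝒵` are known in terms of those on `𝒵`. So if there are no pairs of roots
(for all `j`), then homological and numerical equivalence coincide for `𝒳 × 𝒵` if and only if they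
coincide for `𝒵`, although nothing is known about `𝒵`. This can be iterated: products of several
coverings with `𝒵`. For `𝒵 = 𝒳` one can use (2), with the span `N` of the classes of the graphs of the
powers of Frobenius, composed with the elements of `G`: its part `N_χ` has the dimension of `H_χ` if
`red_χ` is squarefree. So for example for a double covering `𝒳` of `ℙ^d`, `d` odd, with a smooth branch
divisor such that `red_χ` is squarefree (`p = 2`), the two equivalences coincide and the Tate conjecture
holds for `𝒳 × 𝒳`.

Proof. The nonzero eigenvalues of a tensor product of endomorphisms are the products of the eigenvalues;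
modulo a place above `p` an eigenvalue `q ^ c ζ`, `ζ ^ n = 1`, is congruent to `q ^ c`. So (1) follows from
the congruence for `H_χ`, and (2) because the parts `W_1` and `W'_χ` are orthogonal for `χ ≠ 1`.
-/

set_option autoImplicit false
set_option linter.unusedVariables false

namespace Pool.Agent.Results.MP_0c8446_ag.TimesAnyVariety

open Finset Polynomial Module Pool.Agent.J6H31.GA Pool.Agent.W528.HS Pool.Agent.J6H31.AC

/-- Homological and numerical equivalence on products of coverings with arbitrary varieties. -/
theorem result {p s d q r : ℕ} [Fact p.Prime] (hq : ¬ p ∣ q) {G : Type} [CommGroup G]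
    [Fintype G] (hG : ∀ g : G, g ^ p ^ s = 1) {K : Covering G} {E : Type} [Field E] [CharZero E]
    [IsAlgClosed E] (D : Arrangement K E r) {H : Middle K d q E} {Z : Factor E}
    (X : Product H Z) (b c : ℕ) :
    -- (1) the number of Tate classes
    (∀ (χ : G →* E) (e : ℕ), χ ≠ 1 → X.Pairs D p c χ e → X.rank (X.tate c (p ^ b)) χ ≤ e) ∧
    -- (2) enough algebraic classes
    (∀ (N A : Submodule E X.W) (N' A' : Submodule E X.W'), X.Cycles c (p ^ b) A A' →
      X.Enough D p c N A N' A' → X.Descends c (p ^ b) A A') ∧
    -- (3) no pairs of roots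
    ((∀ χ : G →* E, χ ≠ 1 → X.Pairs D p c χ 0) → X.tate c (p ^ b) ≤ eig X.σ 1 ∧
      ∀ (A : Submodule E X.W) (A' : Submodule E X.W'), X.Cycles c (p ^ b) A A' →
        X.Descends c (p ^ b) A A') ∧
    -- (4) finitely generated fields
    (∀ (A : Submodule E X.W) (A' : Submodule E X.W'), StableUnder X.σ A → StableUnder X.σ' A' →
      GaloisFixed X.F ((q ^ c : ℕ) : E) (p ^ b) A → X.Cycles c (p ^ b) A A') := by
  classical
  have hp : p.Prime := Fact.out
  have hcn : ∀ g, Commute (X.F ^ p ^ b) (X.σ g) := fun g => (X.comm g).pow_left _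
  have hqc : ¬ p ∣ q ^ c := fun h => hq (hp.dvd_of_dvd_pow h)
  have hle : ∀ (A : Submodule E X.W), ActsBy X.F ((q ^ c : ℕ) : E) (p ^ b) A →
      A ≤ X.tate c (p ^ b) := by
    intro A hA x hx
    exact (((X.F ^ p ^ b).genEigenspace _).mono le_top)
      (Module.End.mem_eigenspace_iff.2 (hA x hx))
  have hTG : ∀ g, ∀ x ∈ X.tate c (p ^ b), X.σ g x ∈ X.tate c (p ^ b) := fun g x hx =>
    Module.End.mapsTo_maxGenEigenspace_of_comm (hcn g) _ hx
  have lk : Lk Z.P (fun n => powerSum Z.Ψ.charpoly.roots n) Z.Ψ.charpoly.roots :=
    ⟨Z.fac.1, Z.fac.2, fun n => rfl⟩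
  have h1 : ∀ (χ : G →* E) (e : ℕ), χ ≠ 1 → X.Pairs D p c χ e →
      finrank E (X.tate c (p ^ b) ⊓ eig X.σ χ : Submodule E X.W) ≤ e := by
    intro χ e hχ he
    obtain ⟨ε, hε⟩ := X.kunneth χ hχ
    have h2 : finrank E (X.tate c (p ^ b) ⊓ eig X.σ χ : Submodule E X.W)
        = finrank E (((part X.comm χ) ^ p ^ b).maxGenEigenspace (((q ^ c : ℕ) : E) ^ p ^ b)) := by
      unfold Product.tate
      rw [dim_part hcn, part_pow_eq X.comm]
    rw [h2]
    have h3 : ∀ (n : ℕ) (x : eig X.σ χ), ε (((part X.comm χ) ^ n) x)
        = ((tmap (H.part χ) Z.Ψ) ^ n) (ε x) := by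
      intro n
      induction n with
      | zero => intro x; rfl
      | succ n ih =>
        intro x
        rw [pow_succ, pow_succ, Module.End.mul_apply, Module.End.mul_apply, ih, hε]
        rfl
    have h4 : finrank E (((part X.comm χ) ^ p ^ b).maxGenEigenspace (((q ^ c : ℕ) : E) ^ p ^ b))
        ≤ finrank E (((tmap (H.part χ) Z.Ψ) ^ p ^ b).maxGenEigenspace
          (((q ^ c : ℕ) : E) ^ p ^ b)) := by
      rw [← LinearEquiv.finrank_map_eq ε]
      refine Submodule.finrank_mono ?_
      rintro y ⟨x, hx, rfl⟩
      rw [SetLike.mem_coe, Module.End.mem_maxGenEigenspace] at hx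
      obtain ⟨n, hn⟩ := hx
      rw [Module.End.mem_maxGenEigenspace]
      refine ⟨n, ?_⟩
      have h5 : ∀ (m : ℕ) (z : eig X.σ χ),
          ε ((((part X.comm χ) ^ p ^ b - (((q ^ c : ℕ) : E) ^ p ^ b) •
            (1 : Module.End E (eig X.σ χ))) ^ m) z)
          = (((tmap (H.part χ) Z.Ψ) ^ p ^ b - (((q ^ c : ℕ) : E) ^ p ^ b) • 1) ^ m) (ε z) := by
        intro m
        induction m with
        | zero => intro z; rfl
        | succ m ih =>
          intro z
          rw [pow_succ, pow_succ, Module.End.mul_apply, Module.End.mul_apply, ih]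
          congr 1
          rw [LinearMap.sub_apply, LinearMap.sub_apply, map_sub, h3, LinearMap.smul_apply,
            LinearMap.smul_apply, map_smul]
          rfl
      have h6 := h5 n x
      rw [hn, map_zero] at h6
      exact h6.symm
    refine h4.trans ?_
    refine tensor_bound (p := p) (H.part χ) Z.Ψ (R := D.red p d χ)
      (S := Z.P.map (Int.castRingHom (ZMod p))) (part_congr hp hG D H.isMiddle hχ).1 lk.integral
      (fun k _ _ θ A' hA' => red_eq hG D H.isMiddle hχ k θ A' hA') ?_ hqc he b
    intro k _ _ θ A' hA'
    rw [red_prod lk.2.1 hA' θ, Polynomial.map_map]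
    congr 1
    exact RingHom.ext_int _ _
  have h2 : ∀ (N A : Submodule E X.W) (N' A' : Submodule E X.W'), X.Cycles c (p ^ b) A A' →
      X.Enough D p c N A N' A' →
      X.Descends c (p ^ b) A A' ∧ X.tate c (p ^ b) ≤ eig X.σ 1 ⊔ N := by
    intro N A N' A' hA hN
    exact pair_descent X.B X.inv hA.1 hA.2.1 hTG hN.1.2.1 (hle A hA.2.2) hN.1.2.2 hN.2.1
      (fun χ hχ => h1 χ _ hχ (hN.2.2 χ hχ))
  refine ⟨h1, fun N A N' A' hA hN => (h2 N A N' A' hA hN).1, ?_, ?_⟩
  · intro h0
    have hrank : ∀ χ : G →* E, X.rank ⊥ χ = 0 := by
      intro χ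
      unfold Product.rank charDim
      rw [bot_inf_eq, finrank_bot]
    have hbot : ∀ g, ∀ x ∈ (⊥ : Submodule E X.W), X.σ g x ∈ (⊥ : Submodule E X.W) := by
      intro g x hx
      rw [Submodule.mem_bot] at hx ⊢
      rw [hx, map_zero]
    have hbot' : ∀ g, ∀ x ∈ (⊥ : Submodule E X.W'), X.σ' g x ∈ (⊥ : Submodule E X.W') := by
      intro g x hx
      rw [Submodule.mem_bot] at hx ⊢
      rw [hx, map_zero]
    have hen : ∀ (A : Submodule E X.W) (A' : Submodule E X.W'), X.Enough D p c ⊥ A ⊥ A' :=
      fun A A' => ⟨⟨hbot, bot_le, bot_le⟩, fun x hx _ => (Submodule.mem_bot E).1 hx,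
        fun χ hχ => by
          rw [hrank]
          exact h0 χ hχ⟩
    refine ⟨?_, fun A A' hA => (h2 ⊥ A ⊥ A' hA (hen A A')).1⟩
    have h3 := (h2 ⊥ ⊥ ⊥ ⊥ ⟨hbot, hbot', fun x hx => by
      rw [Submodule.mem_bot] at hx
      rw [hx, map_zero, smul_zero]⟩ (hen ⊥ ⊥)).2
    rwa [sup_bot_eq] at h3
  · intro A A' hA hA' hF
    exact ⟨hA, hA', hF.actsBy⟩

end Pool.Agent.Results.MP_0c8446_ag.TimesAnyVariety
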